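import Pool.Agent.Helper9.Vir.V10

set_option autoImplicit false

namespace Pool.Agent.Results.MP_b4de2f_al.Disproof

universe u

/-- There are `ℓ ≥ 2`, indices `1 ≤ n ≤ m ≤ ℓ`, a degree `k` and a prime `p > 2 ℓ ^ 2 + ℓ - 3`
such that, over every field `F` of characteristic `p`, the degree `k` part of the simple module
`L_{c_ℓ, h_{m,n}}` has dimension `3`, while over the complex numbers it has dimension `4`. -/
theorem result : ∃ ℓ m n k p : ℕ,
    2 ≤ ℓ ∧ 1 ≤ n ∧ n ≤ m ∧ m ≤ ℓ ∧ p.Prime ∧ 2 * ℓ ^ 2 + ℓ - 3 < p ∧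
    ∀ (F : Type u) [Field F] [CharP F p],
      dimL F (cc F ℓ) (hh F ℓ m n) k = 3 ∧ dimL ℂ (cc ℂ ℓ) (hh ℂ ℓ m n) k = 4 := by
  refine ⟨3, 3, 2, 4, 23, by norm_num, by norm_num, by norm_num, by norm_num, by norm_num,
    by norm_num, ?_⟩
  intro F _ _
  exact ⟨dim23 F, dim0⟩

end Pool.Agent.Results.MP_b4de2f_al.Disproof
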